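import Pool.Agent.W622.ETC.Stm

set_option autoImplicit false

/-!
# The decomposition with respect to a good subspace
-/

namespace Pool.Agent.W460.ELT

open Pool.Agent.W622.ETC Module

theorem exists_pr {V : Type} [AddCommGroup V] [Module (ZMod 2) V] [Finite V] (A : Fam V)
    (X : DSub V) (hA : AltFam A) (hLU : LU (res A X)) (hG : Good A X) (ζ : Frm V) (hζ : ζ ∈ A) :
    ∃ π, IsPr A X ζ π := by
  have hζa := hA ζ hζ
  let E : Submodule (ZMod 2) V := X.dualCoannihilator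
  have hE : ∀ e : V, e ∈ E ↔ ∀ f ∈ X, f e = 0 := fun e => Submodule.mem_dualCoannihilator e
  let F : Submodule (ZMod 2) V := X.comap ζ
  have hF : ∀ a : V, a ∈ F ↔ ζ a ∈ X := fun a => Iff.rfl
  -- members of `res A X` kill `E`
  have hkE : ∀ η ∈ res A X, ∀ e ∈ E, η e = 0 := by
    intro η hη e he
    refine LinearMap.ext fun w => ?_
    rw [(hA η hη.1).symm]
    exact (hE e).1 he (η w) (hη.2 w)
  have hEF : ∀ a ∈ E, a ∈ F → ζ a = 0 := by
    intro a ha ha'
    obtain ⟨η, hη, h1⟩ := hG a ζ hζ ((hF a).1 ha')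
    rw [← h1]
    exact hkE η hη a ha
  -- `E + F = V`
  have htop : E ⊔ F = ⊤ := by
    by_contra hne
    obtain ⟨f, hf0, hf⟩ := Submodule.exists_le_ker_of_lt_top (E ⊔ F) (lt_top_iff_ne_top.2 hne)
    have hfE : ∀ e ∈ E, f e = 0 := fun e he => hf (Submodule.mem_sup_left he)
    have hfF : ∀ a ∈ F, f a = 0 := fun a ha => hf (Submodule.mem_sup_right ha)
    have hfX : f ∈ X := mem_of_coann fun b hb => hfE b ((hE b).2 hb)
    have hfm : f ∈ E.map ζ := by
      refine mem_of_coann fun b hb => hfF b ((hF b).2 (mem_of_coann fun c hc => ?_))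
      rw [hζa.symm]
      exact hb (ζ c) ⟨c, (hE c).2 hc, rfl⟩
    obtain ⟨e, he, hef⟩ := hfm
    apply hf0
    rw [← hef]
    exact hEF e he ((hF e).2 (by rw [hef]; exact hfX))
  -- the projection
  have hsurj : Function.Surjective (E.subtype.coprod F.subtype) := by
    intro v
    obtain ⟨e, he, a, ha, hv⟩ := Submodule.mem_sup.1 (htop ▸ Submodule.mem_top : v ∈ E ⊔ F)
    exact ⟨(⟨e, he⟩, ⟨a, ha⟩), by rw [LinearMap.coprod_apply]; exact hv⟩
  obtain ⟨g, hg⟩ := LinearMap.exists_rightInverse_of_surjective _ (LinearMap.range_eq_top.2 hsurj)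
  have hg' : ∀ v, ((g v).1 : V) + ((g v).2 : V) = v := fun v => by
    have := LinearMap.congr_fun hg v
    rwa [LinearMap.comp_apply, LinearMap.coprod_apply] at this
  let π : Frm V := (ζ ∘ₗ F.subtype) ∘ₗ (LinearMap.snd (ZMod 2) E F) ∘ₗ g
  have hπ : ∀ v, π v = ζ ((g v).2 : V) := fun v => rfl
  have hπX : ∀ v, π v ∈ X := fun v => (g v).2.2
  have hπalt : Alt π := by
    intro v
    have h1 : π v v = π v (((g v).1 : V) + ((g v).2 : V)) := by rw [hg']
    rw [h1, map_add, (hE _).1 (g v).1.2 (π v) (hπX v), zero_add, hπ]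
    exact hζa _
  have hπA : π ∈ res A X := by
    refine hLU π hπalt fun v => ?_
    obtain ⟨η, hη, h1⟩ := hG ((g v).2 : V) ζ hζ (g v).2.2
    refine ⟨η, hη, ?_⟩
    have h2 : η v = η (((g v).1 : V) + ((g v).2 : V)) := by rw [hg']
    rw [h2, map_add, hkE η hη _ (g v).1.2, zero_add, h1, hπ]
  refine ⟨π, hπA, ?_⟩
  rw [Submodule.disjoint_def]
  rintro _ ⟨v, rfl⟩ hv
  have h1 : (ζ + π) v = ζ ((g v).1 : V) := by
    have h2 : ζ v = ζ (((g v).1 : V) + ((g v).2 : V)) := by rw [hg']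
    rw [LinearMap.add_apply, h2, map_add, hπ, add_cancel']
  rw [h1] at hv ⊢
  exact hEF _ (g v).1.2 hv

/-- DEC. The decomposition with respect to a good subspace. -/
theorem t_DEC : S_DEC := by
  intro V _ _ _ A X hA
  refine ⟨fun hLU hG ζ hζ => exists_pr A X hA hLU hG ζ hζ, ?_, ?_⟩
  · intro ζ hζ π π' h h'
    have h1 : sp (π + π') ≤ X := sp_le.2 fun a => X.add_mem (h.1.2 a) (h'.1.2 a)
    have h2 : (ζ + π) + (π + π') = ζ + π' := by
      rw [add_assoc]
      exact congrArg (ζ + ·) (W622.ETC.add_cancel_left' π π')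
    have h3 := sp_add ((hA ζ hζ).add (hA π h.1.1)) ((hA π h.1.1).add (hA π' h'.1.1))
      (h.2.mono_right h1)
    rw [h2] at h3
    have h4 : sp (π + π') ≤ sp (ζ + π') := by
      rw [h3]
      exact le_sup_right
    have h5 : sp (π + π') = ⊥ := by
      have := h'.2 h4 h1
      exact le_bot_iff.1 this
    exact W622.ETC.add_eq_zero'.1 (sp_eq_bot.1 h5)
  · intro ζ hζ π h
    have h1 : sp π ≤ X := sp_le.2 h.1.2
    have h2 : π + (ζ + π) = ζ := by
      rw [add_comm]
      exact W622.ETC.add_cancel' ζ π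
    refine ⟨fun v hv => ?_, ?_, fun v hv => ?_⟩
    · rw [← h2] at hv
      exact ((add_ker h1 le_rfl h.2.symm).1 hv).1
    · have h3 := sp_add (hA π h.1.1) ((hA ζ hζ).add (hA π h.1.1)) (h.2.symm.mono_left h1)
      rw [h2] at h3
      rw [h3]
      exact le_sup_left
    · have h3 : (ζ + π) v ∈ X := X.add_mem hv (h.1.2 v)
      have h4 : (ζ + π) v = 0 := (Submodule.disjoint_def.1 h.2) _ ⟨v, rfl⟩ h3
      exact (W622.ETC.add_eq_zero'.1 h4).symm

end Pool.Agent.W460.ELT
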